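import Pool.Agent.MP_1c689d_ag.Defs

set_option autoImplicit false

namespace Pool.Agent.MP_1c689d_ag.FP

noncomputable section

variable {F : Type} [Field F] [Algebra ℂ F] {N : ℕ}

/-- The punctured affine cone over the projective variety `Y ⊆ ℙ^N` with generic point
`(ξ₀ : … : ξ_N)`: the non-zero complex vectors killed by every homogeneous polynomial that
vanishes at `ξ`. -/
abbrev Cn (ξ : Fin (N + 1) → F) : Type :=
  {x : Fin (N + 1) → ℂ // x ≠ 0 ∧ ∀ (d : ℕ) (f : MvPolynomial (Fin (N + 1)) ℂ),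
    f.IsHomogeneous d → MvPolynomial.aeval ξ f = 0 → MvPolynomial.eval x f = 0}

/-- Two points of the cone are identified if they span the same line. -/
def rl (ξ : Fin (N + 1) → F) : Setoid (Cn ξ) :=
  Setoid.ker (fun x : Cn ξ => Projectivization.mk ℂ x.1 x.2.1)

/-- The complex points `Y(ℂ)` with the analytic (quotient) topology. -/
abbrev Pt (ξ : Fin (N + 1) → F) : Type := Quotient (rl ξ)

/-- The Zariski open subset `Q ≠ 0` of `Y`. -/
def Zop (ξ : Fin (N + 1) → F) (Q : MvPolynomial (Fin (N + 1)) ℂ) : Set (Pt ξ) :=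
  {y | ∃ x : Cn ξ, Quotient.mk (rl ξ) x = y ∧ MvPolynomial.eval x.1 Q ≠ 0}

/-- The coordinate ring `ℂ[ξ₀/ξᵢ, …, ξ_N/ξᵢ] ⊆ F` of the affine chart `xᵢ ≠ 0` of `Y`. -/
def chart (ξ : Fin (N + 1) → F) (i : Fin (N + 1)) : Subalgebra ℂ F :=
  Algebra.adjoin ℂ (Set.range fun j => ξ j / ξ i)

/-- The rational `n`-forms on `Y` that are regular on the affine open set with coordinate ring
`R`: the `R`-span of the forms `da₁ ∧ … ∧ daₙ`, `aₖ ∈ R`. -/
def regOn (R : Subalgebra ℂ F) (n : ℕ) : Submodule R (⋀[F]^n Ω[F⁄ℂ]) :=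
  Submodule.span R (Set.range fun a : Fin n → R =>
    exteriorPower.ιMulti F n fun k => KaehlerDifferential.D ℂ F (a k : F))

end

end Pool.Agent.MP_1c689d_ag.FP
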