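import Pool.Agent.MP_1c689d_ag.FP.Final
import Pool.Agent.MP_1c689d_ag.FP.StmtB

set_option autoImplicit false

open Pool.Agent.MP_1c689d_ag Pool.Agent.MP_1c689d_ag.FP

/-- Coniveau one for `H³` of every smooth projective threefold `Y` with `h^{3,0}(Y) = 0` that is
birational to the fibre product over `ℙ¹` of two elliptic surfaces with section. -/
theorem Pool.Agent.MP_1c689d_ag.FP.fibre_products
    {F : Type} [Field F] [Algebra ℂ F] {N : ℕ} (ξ : Fin (N + 1) → F)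
    (hY : IsSmoothModel ξ) (hpg : NoRegForm ξ 3)
    (A₁ B₁ A₂ B₂ : Polynomial ℂ) (s x₁ y₁ x₂ y₂ : F)
    (e₁ : OnWeier A₁ B₁ s x₁ y₁) (e₂ : OnWeier A₂ B₂ s x₂ y₂)
    (hind : AlgebraicIndependent ℂ ![s, x₁, x₂])
    (hgen : IntermediateField.adjoin ℂ {s, x₁, y₁, x₂, y₂} = ⊤) :
    ∃ (Q : MvPolynomial (Fin (N + 1)) ℂ) (d : ℕ), Q.IsHomogeneous d ∧
      MvPolynomial.aeval ξ Q ≠ 0 ∧ (Zop ξ Q).Nonempty ∧ RestrictionZero (Zop ξ Q) 2 :=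
  main_prod ξ hY.gen hY.smooth hpg.regOn A₁ B₁ A₂ B₂ e₁.disc e₂.disc s x₁ y₁ x₂ y₂ hind
    e₁.eqn e₂.eqn hgen
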