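import Pool.Agent.MP_1c689d_ag.FP.Defs

set_option autoImplicit false

namespace Pool.Agent.MP_1c689d_ag.FP

noncomputable section

variable {F : Type} [Field F] [Algebra ℂ F] {N : ℕ}

/-- The sums of elements `r · d a₁ ∧ … ∧ d aₙ` with `r, a₁, …, aₙ ∈ R`, in the exterior algebra
of an `F`-vector space `M`, for a map `d : F → M`. -/
def wedges (R : Subalgebra ℂ F) {M : Type} [AddCommGroup M] [Module F M] (d : F → M) (n : ℕ) :
    AddSubgroup (ExteriorAlgebra F M) :=
  AddSubgroup.closure {η | ∃ r ∈ R, ∃ a : Fin n → F, (∀ k, a k ∈ R) ∧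
    η = r • ExteriorAlgebra.ιMulti F n fun k => d (a k)}

/-- `h^{n,0}(Y) = 0`: a rational `n`-form that is regular on every affine chart is zero. -/
def NoRegForm (ξ : Fin (N + 1) → F) (n : ℕ) : Prop :=
  ∀ η, (∀ i, ξ i ≠ 0 → η ∈ wedges (chart ξ i) (KaehlerDifferential.D ℂ F) n) → η = 0

/-- `Y` is a smooth projective variety with function field `F`. -/
structure IsSmoothModel (ξ : Fin (N + 1) → F) : Prop where
  gen : IntermediateField.adjoin ℂ
    (Set.range fun p : Fin (N + 1) × Fin (N + 1) => ξ p.1 / ξ p.2) = ⊤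
  smooth : ∀ i, ξ i ≠ 0 → Algebra.Smooth ℂ (chart ξ i)

/-- `(x, y)` is a point of the Weierstrass curve `y² = x³ + A(s) x + B(s)` with non-zero
discriminant. -/
structure OnWeier (A B : Polynomial ℂ) (s x y : F) : Prop where
  disc : 4 * A ^ 3 + 27 * B ^ 2 ≠ 0
  eqn : y ^ 2 = x ^ 3 + Polynomial.aeval s A * x + Polynomial.aeval s B

end

end Pool.Agent.MP_1c689d_ag.FP
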